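import Mathlib

/-!
# The largest square in an odd-dimensional unit cube

`InscribedCube m n s` says that an `m`-dimensional cube of edge `s` (a congruent copy of `[0,s]^m`)
lies in the unit cube `[0,1]^n`.  The largest edge of a square inscribed in the unit cube of
dimension `2n+1` is `√((8n+1)/8)`, for every `n ≥ 1`.
-/

namespace Pool.Agent.Results.MP_befaea_co.LargestSquare

/-- A congruent copy of `[0,s]^m`, in some `m`-dimensional affine subspace of `ℝ^n`, is contained in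
the unit cube `[0,1]^n`. -/
def InscribedCube (m n : ℕ) (s : ℝ) : Prop :=
  0 ≤ s ∧ ∃ φ : EuclideanSpace ℝ (Fin m) →ᵃⁱ[ℝ] EuclideanSpace ℝ (Fin n),
    ∀ x : EuclideanSpace ℝ (Fin m), (∀ i, 0 ≤ x i ∧ x i ≤ s) → ∀ j, 0 ≤ φ x j ∧ φ x j ≤ 1

/-- If `0 ≤ P i ≤ 1` and the sum of the `1 - P i ^ 2` is less than `3 / 4`, then the sum of the
`1 - P i` is less than `1 / 2`. -/
lemma sum_lt_half {ι : Type} (t : Finset ι) (x : ι → ℝ) (h0 : ∀ i ∈ t, 0 ≤ x i)
    (h1 : ∀ i ∈ t, x i ≤ 1) (h : ∑ i ∈ t, x i * (2 - x i) < 3 / 4) : ∑ i ∈ t, x i < 1 / 2 := by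
  have hle : ∀ i ∈ t, x i ≤ ∑ j ∈ t, x j := fun i hi => Finset.single_le_sum h0 hi
  have hA : ∑ i ∈ t, x i ≤ ∑ i ∈ t, x i * (2 - x i) :=
    Finset.sum_le_sum fun i hi => by nlinarith [h0 i hi, h1 i hi]
  have hB : (∑ i ∈ t, x i) * (2 - ∑ i ∈ t, x i) ≤ ∑ i ∈ t, x i * (2 - x i) := by
    rw [Finset.sum_mul]
    exact Finset.sum_le_sum fun i hi => by nlinarith [h0 i hi, hle i hi]
  nlinarith

/-- The combinatorial heart: two orthogonal vectors of `[-1,1]^N`, `N` odd, of the same squared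
length `R`, have `R ≤ N - 3 / 4`. -/
lemma key (N : ℕ) (hN : Odd N) (p q : Fin N → ℝ) (hp : ∀ i, |p i| ≤ 1) (hq : ∀ i, |q i| ≤ 1)
    (R : ℝ) (hpR : ∑ i, p i ^ 2 = R) (hqR : ∑ i, q i ^ 2 = R) (hpq : ∑ i, p i * q i = 0) :
    R ≤ N - 3 / 4 := by
  by_contra hcon
  push Not at hcon
  have hP : ∑ i, (1 - |p i|) < 1 / 2 := by
    apply sum_lt_half
    · intro i _; linarith [hp i]
    · intro i _; linarith [abs_nonneg (p i)]
    · have : ∑ i, (1 - |p i|) * (2 - (1 - |p i|)) = N - R := by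
        rw [← hpR]
        have : ∀ i, (1 - |p i|) * (2 - (1 - |p i|)) = 1 - p i ^ 2 := by
          intro i
          have := sq_abs (p i)
          nlinarith
        simp only [this, Finset.sum_sub_distrib]
        simp
      rw [this]; linarith
  have hQ : ∑ i, (1 - |q i|) < 1 / 2 := by
    apply sum_lt_half
    · intro i _; linarith [hq i]
    · intro i _; linarith [abs_nonneg (q i)]
    · have : ∑ i, (1 - |q i|) * (2 - (1 - |q i|)) = N - R := by
        rw [← hqR]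
        have : ∀ i, (1 - |q i|) * (2 - (1 - |q i|)) = 1 - q i ^ 2 := by
          intro i
          have := sq_abs (q i)
          nlinarith
        simp only [this, Finset.sum_sub_distrib]
        simp
      rw [this]; linarith
  -- signs
  let e : Fin N → ℤ := fun i => if 0 ≤ p i * q i then 1 else -1
  have he : ∀ i, (e i : ℝ) * (|p i| * |q i|) = p i * q i := by
    intro i
    rw [← abs_mul]
    by_cases h : 0 ≤ p i * q i
    · simp [e, h, abs_of_nonneg h]
    · simp [e, h, abs_of_neg (not_le.mp h)]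
  have hodd : Odd (∑ i, e i) := by
    have h1 : ∑ i, e i = ∑ i : Fin N, (1 : ℤ) - 2 * ∑ i, (if 0 ≤ p i * q i then (0 : ℤ) else 1) := by
      rw [Finset.mul_sum, ← Finset.sum_sub_distrib]
      apply Finset.sum_congr rfl
      intro i _
      by_cases h : 0 ≤ p i * q i <;> simp [e, h]
    rw [h1]
    have h2 : ∑ i : Fin N, (1 : ℤ) = (N : ℤ) := by simp
    rw [h2]
    have : Odd (N : ℤ) := by exact_mod_cast hN
    obtain ⟨k, hk⟩ := this
    exact ⟨k - ∑ i, (if 0 ≤ p i * q i then (0 : ℤ) else 1), by rw [hk]; ring⟩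
  have habs : (1 : ℝ) ≤ |∑ i, (e i : ℝ)| := by
    have h1 : (∑ i, e i) ≠ 0 := by
      intro h
      rw [h] at hodd
      exact absurd hodd (by decide)
    have h2 : 1 ≤ |∑ i, e i| := Int.one_le_abs h1
    exact_mod_cast h2
  have h3 : ∑ i, (e i : ℝ) = ∑ i, (e i : ℝ) * (1 - |p i| * |q i|) := by
    simp only [mul_sub, mul_one, Finset.sum_sub_distrib, he, hpq, sub_zero]
  have h4 : |∑ i, (e i : ℝ)| ≤ ∑ i, (1 - |p i| * |q i|) := by
    rw [h3]
    refine (Finset.abs_sum_le_sum_abs _ _).trans (Finset.sum_le_sum fun i _ => ?_)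
    rw [abs_mul]
    have h5 : |(e i : ℝ)| = 1 := by
      by_cases h : 0 ≤ p i * q i <;> simp [e, h]
    rw [h5, one_mul, abs_of_nonneg]
    nlinarith [hp i, hq i, abs_nonneg (p i), abs_nonneg (q i)]
  have h6 : ∑ i, (1 - |p i| * |q i|) ≤ ∑ i, (1 - |p i|) + ∑ i, (1 - |q i|) := by
    rw [← Finset.sum_add_distrib]
    refine Finset.sum_le_sum fun i _ => ?_
    nlinarith [hp i, hq i]
  linarith

/-- Upper bound. -/
lemma upper (N : ℕ) (hN : Odd N) (s : ℝ) (h : InscribedCube 2 N s) : 2 * s ^ 2 ≤ N - 3 / 4 := by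
  obtain ⟨hs, φ, hφ⟩ := h
  set a : EuclideanSpace ℝ (Fin 2) := !₂[0, 0] with ha
  set b : EuclideanSpace ℝ (Fin 2) := !₂[s, 0] with hb
  set c : EuclideanSpace ℝ (Fin 2) := !₂[s, s] with hc
  set d : EuclideanSpace ℝ (Fin 2) := !₂[0, s] with hd
  have Ia := hφ a (by intro i; fin_cases i <;> simp [ha, hs])
  have Ib := hφ b (by intro i; fin_cases i <;> simp [hb, hs])
  have Ic := hφ c (by intro i; fin_cases i <;> simp [hc, hs])
  have Id := hφ d (by intro i; fin_cases i <;> simp [hd, hs])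
  have hlin : ∀ x y : EuclideanSpace ℝ (Fin 2), φ x - φ y = φ.linearIsometry (x - y) := by
    intro x y
    simpa using (φ.toAffineMap.linearMap_vsub x y).symm
  have hn1 : ∑ i, (φ c i - φ a i) ^ 2 = 2 * s ^ 2 := by
    have h1 : ‖φ c - φ a‖ ^ 2 = ‖c - a‖ ^ 2 := by
      rw [hlin, LinearIsometry.norm_map]
    rw [EuclideanSpace.norm_sq_eq, EuclideanSpace.norm_sq_eq] at h1
    simp only [PiLp.sub_apply, Real.norm_eq_abs, sq_abs] at h1
    rw [h1]
    simp [hc, ha, Fin.sum_univ_two]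
    ring
  have hn2 : ∑ i, (φ d i - φ b i) ^ 2 = 2 * s ^ 2 := by
    have h1 : ‖φ d - φ b‖ ^ 2 = ‖d - b‖ ^ 2 := by
      rw [hlin, LinearIsometry.norm_map]
    rw [EuclideanSpace.norm_sq_eq, EuclideanSpace.norm_sq_eq] at h1
    simp only [PiLp.sub_apply, Real.norm_eq_abs, sq_abs] at h1
    rw [h1]
    simp [hd, hb, Fin.sum_univ_two]
    ring
  have hn3 : ∑ i, (φ c i - φ a i) * (φ d i - φ b i) = 0 := by
    have h1 : inner ℝ (φ d - φ b) (φ c - φ a) = inner ℝ (d - b) (c - a) := by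
      rw [hlin, hlin, LinearIsometry.inner_map_map]
    rw [PiLp.inner_apply, PiLp.inner_apply] at h1
    simp only [PiLp.sub_apply, RCLike.inner_apply, conj_trivial] at h1
    rw [h1]
    simp [hd, hb, hc, ha, Fin.sum_univ_two]
  have := key N hN (fun i => φ c i - φ a i) (fun i => φ d i - φ b i)
    (fun i => by rw [abs_le]; constructor <;> linarith [(Ia i).1, (Ia i).2, (Ic i).1, (Ic i).2])
    (fun i => by rw [abs_le]; constructor <;> linarith [(Ib i).1, (Ib i).2, (Id i).1, (Id i).2])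
    (2 * s ^ 2) hn1 hn2 hn3
  exact this

/-- One half-diagonal (doubled) of the extremal square. -/
noncomputable def P (i : ℕ) : ℝ := if i = 1 then 1 / 2 else 1

/-- The other half-diagonal (doubled) of the extremal square. -/
noncomputable def Q (i : ℕ) : ℝ := if i = 0 then 1 / 2 else if i = 1 then 1 else (-1) ^ (i + 1)

lemma P_abs (i : ℕ) : |P i| ≤ 1 := by
  unfold P; split_ifs <;> norm_num [abs_of_pos]

lemma Q_abs (i : ℕ) : |Q i| ≤ 1 := by
  unfold Q; split_ifs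
  · norm_num [abs_of_pos]
  · norm_num
  · rw [abs_pow]; norm_num

lemma sums (m : ℕ) : ∑ i ∈ Finset.range (2 * m + 3), P i ^ 2 = 2 * m + 9 / 4 ∧
    ∑ i ∈ Finset.range (2 * m + 3), Q i ^ 2 = 2 * m + 9 / 4 ∧
    ∑ i ∈ Finset.range (2 * m + 3), P i * Q i = 0 := by
  induction m with
  | zero => refine ⟨?_, ?_, ?_⟩ <;> norm_num [Finset.sum_range_succ, P, Q]
  | succ m ih =>
    obtain ⟨h1, h2, h3⟩ := ih
    have e : 2 * (m + 1) + 3 = 2 * m + 3 + 1 + 1 := by ring
    have p1 : P (2 * m + 3) = 1 := by unfold P; rw [if_neg (by omega)]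
    have p2 : P (2 * m + 3 + 1) = 1 := by unfold P; rw [if_neg (by omega)]
    have q1 : Q (2 * m + 3) = 1 := by
      unfold Q; rw [if_neg (by omega), if_neg (by omega)]
      exact Even.neg_one_pow ⟨m + 2, by ring⟩
    have q2 : Q (2 * m + 3 + 1) = -1 := by
      unfold Q; rw [if_neg (by omega), if_neg (by omega)]
      exact Odd.neg_one_pow ⟨m + 2, by ring⟩
    rw [e]
    refine ⟨?_, ?_, ?_⟩
    · rw [Finset.sum_range_succ, Finset.sum_range_succ, h1, p1, p2]; push_cast; ring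
    · rw [Finset.sum_range_succ, Finset.sum_range_succ, h2, q1, q2]; push_cast; ring
    · rw [Finset.sum_range_succ, Finset.sum_range_succ, h3, p1, p2, q1, q2]; ring

/-- Lower bound. -/
lemma lower (m : ℕ) (s : ℝ) (hs : 0 < s) (hs2 : 2 * s ^ 2 = 2 * m + 9 / 4) :
    InscribedCube 2 (2 * m + 3) s := by
  obtain ⟨h1, h2, h3⟩ := sums m
  rw [Finset.sum_range] at h1 h2 h3
  refine ⟨hs.le, ?_⟩
  let f : Fin (2 * m + 3) → ℝ := fun j => (P j - Q j) / (2 * s)
  let g : Fin (2 * m + 3) → ℝ := fun j => (P j + Q j) / (2 * s)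
  have hs0 : s ≠ 0 := hs.ne'
  have hff : ∑ j, f j ^ 2 = 1 := by
    have : ∀ j, f j ^ 2 = (P j ^ 2 + Q j ^ 2 - 2 * (P j * Q j)) / (4 * s ^ 2) := by
      intro j; simp only [f]; field_simp; ring
    simp only [this]
    rw [← Finset.sum_div, Finset.sum_sub_distrib, Finset.sum_add_distrib, ← Finset.mul_sum,
      h1, h2, h3]
    rw [div_eq_one_iff_eq (by positivity)]
    linarith
  have hgg : ∑ j, g j ^ 2 = 1 := by
    have : ∀ j, g j ^ 2 = (P j ^ 2 + Q j ^ 2 + 2 * (P j * Q j)) / (4 * s ^ 2) := by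
      intro j; simp only [g]; field_simp; ring
    simp only [this]
    rw [← Finset.sum_div, Finset.sum_add_distrib, Finset.sum_add_distrib, ← Finset.mul_sum,
      h1, h2, h3]
    rw [div_eq_one_iff_eq (by positivity)]
    linarith
  have hfg : ∑ j, f j * g j = 0 := by
    have : ∀ j, f j * g j = (P j ^ 2 - Q j ^ 2) / (4 * s ^ 2) := by
      intro j; simp only [f, g]; field_simp; ring
    simp only [this]
    rw [← Finset.sum_div, Finset.sum_sub_distrib, h1, h2]
    simp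
  let L₀ : EuclideanSpace ℝ (Fin 2) →ₗ[ℝ] EuclideanSpace ℝ (Fin (2 * m + 3)) :=
    { toFun := fun x => WithLp.toLp 2 fun j => x 0 * f j + x 1 * g j
      map_add' := by
        intro x y; ext j; simp; ring
      map_smul' := by
        intro r x; ext j; simp; ring }
  have hL₀ : ∀ x j, L₀ x j = x 0 * f j + x 1 * g j := fun x j => rfl
  have hnorm : ∀ x, ‖L₀ x‖ = ‖x‖ := by
    intro x
    have h5 : ‖L₀ x‖ ^ 2 = ‖x‖ ^ 2 := by
      rw [EuclideanSpace.norm_sq_eq, EuclideanSpace.norm_sq_eq]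
      simp only [Real.norm_eq_abs, sq_abs, hL₀, Fin.sum_univ_two]
      have : ∀ j, (x 0 * f j + x 1 * g j) ^ 2 =
          x 0 ^ 2 * f j ^ 2 + 2 * x 0 * x 1 * (f j * g j) + x 1 ^ 2 * g j ^ 2 := by
        intro j; ring
      simp only [this]
      rw [Finset.sum_add_distrib, Finset.sum_add_distrib, ← Finset.mul_sum, ← Finset.mul_sum,
        ← Finset.mul_sum, hff, hgg, hfg]
      ring
    have h6 := norm_nonneg (L₀ x)
    have h7 := norm_nonneg x
    nlinarith
  let L : EuclideanSpace ℝ (Fin 2) →ₗᵢ[ℝ] EuclideanSpace ℝ (Fin (2 * m + 3)) := ⟨L₀, hnorm⟩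
  let c : EuclideanSpace ℝ (Fin (2 * m + 3)) := WithLp.toLp 2 fun j => (1 - P j) / 2
  refine ⟨(AffineIsometryEquiv.constVAdd ℝ _ c).toAffineIsometry.comp L.toAffineIsometry, ?_⟩
  intro x hx j
  have hval : ((AffineIsometryEquiv.constVAdd ℝ _ c).toAffineIsometry.comp L.toAffineIsometry) x j
      = (1 - P j) / 2 + (x 0 * f j + x 1 * g j) := rfl
  rw [hval]
  have hP := abs_le.mp (P_abs j)
  have hQ := abs_le.mp (Q_abs j)
  obtain ⟨hx0, hx0'⟩ := hx 0
  obtain ⟨hx1, hx1'⟩ := hx 1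
  set u := x 0 / s with hu
  set v := x 1 / s with hv
  have hu0 : 0 ≤ u := div_nonneg hx0 hs.le
  have hu1 : u ≤ 1 := (div_le_one hs).mpr hx0'
  have hv0 : 0 ≤ v := div_nonneg hx1 hs.le
  have hv1 : v ≤ 1 := (div_le_one hs).mpr hx1'
  have e1 : (1 - P j) / 2 + (x 0 * f j + x 1 * g j) =
      1 / 2 + ((u + v - 1) * P j + (v - u) * Q j) / 2 := by
    simp only [f, g, hu, hv]
    field_simp
    ring
  rw [e1]
  have hb : |(u + v - 1) * P j + (v - u) * Q j| ≤ 1 := by
    have t1 : |(u + v - 1) * P j| ≤ |u + v - 1| := by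
      rw [abs_mul]; exact mul_le_of_le_one_right (abs_nonneg _) (P_abs j)
    have t2 : |(v - u) * Q j| ≤ |v - u| := by
      rw [abs_mul]; exact mul_le_of_le_one_right (abs_nonneg _) (Q_abs j)
    have t3 : |u + v - 1| + |v - u| ≤ 1 := by
      rcases abs_cases (u + v - 1) with ⟨e, _⟩ | ⟨e, _⟩ <;>
      rcases abs_cases (v - u) with ⟨e', _⟩ | ⟨e', _⟩ <;> rw [e, e'] <;> linarith
    exact (abs_add_le _ _).trans ((add_le_add t1 t2).trans t3)
  have hb' := abs_le.mp hb
  constructor <;> linarith [hb'.1, hb'.2]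

/-- **The largest square in an odd-dimensional unit cube.**  For every `n ≥ 1` the largest `s` such
that a square of side `s` fits into `[0,1]^(2n+1)` is `√((8n+1)/8)`. -/
theorem result : ∀ n : ℕ, 1 ≤ n →
    IsGreatest {s : ℝ | InscribedCube 2 (2 * n + 1) s} (√((8 * (n : ℝ) + 1) / 8)) := by
  intro n hn
  obtain ⟨m, rfl⟩ : ∃ m, n = m + 1 := ⟨n - 1, by omega⟩
  have hpos : (0 : ℝ) < (8 * ((m + 1 : ℕ) : ℝ) + 1) / 8 := by positivity
  constructor
  · have h := lower m (√((8 * ((m + 1 : ℕ) : ℝ) + 1) / 8)) (Real.sqrt_pos.mpr hpos)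
      (by rw [Real.sq_sqrt hpos.le]; push_cast; ring)
    exact h
  · intro s hs
    have h := upper (2 * (m + 1) + 1) ⟨m + 1, rfl⟩ s hs
    apply Real.le_sqrt_of_sq_le
    push_cast at h ⊢
    linarith

end Pool.Agent.Results.MP_befaea_co.LargestSquare
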